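import Pool.Agent.Helper33.ETC.S1a
import Pool.Agent.Helper16.ETC.N12
import Pool.Agent.Helper39.ETC.G1011

/-!
# Block ETC-S1 (helper37, MP_600e55_nt).  Proof: helper33.
-/

set_option autoImplicit false
set_option linter.unusedVariables false

namespace Pool.Helper37.ETC

variable {p : ℕ} [Fact p.Prime] {G K : Type*} [Group G] [TopologicalSpace G]
  [IsTopologicalGroup G] [CompactSpace G] [T2Space G] [TotallyDisconnectedSpace G] [Field K]
  [MulSemiringAction G K] {ζ : K}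

/-- S1 (uses G3, G11, N1) -/
theorem sym_of_nf (Gd : Good p G K ζ) {a b : K} (ha : a ∈ (Fx G : Set K)) (ha0 : a ≠ 0)
    (hb : b ∈ (Fx G : Set K)) (hb0 : b ≠ 0) {χ ψ : G → ZMod p} (hχ : IsKum ζ a χ)
    (hψ : IsKum ζ b ψ) (x : Fin p → K) (hx : ∀ i, x i ∈ (Fx G : Set K)) (h : nf x a = b) :
    IsCob p (fun σ τ => χ σ * ψ τ) :=
  sym_of_nf_of (fun x α => nf_eq_prod Gd.prim x α)
    (fun g hg hlc h => cob_of_cobK Gd g hg hlc h) Gd ha0 hb0 hχ hψ x hx h

end Pool.Helper37.ETC
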