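import Pool.Agent.Helper33.ETC.S2a
import Pool.Agent.Helper16.ETC.N12
import Pool.Agent.Helper82.ETC.G3

/-!
# Block ETC-S2 (helper37, MP_600e55_nt).  Proof: helper33.
-/

set_option autoImplicit false
set_option linter.unusedVariables false

namespace Pool.Helper37.ETC

variable {p : ℕ} [Fact p.Prime] {G K : Type*} [Group G] [TopologicalSpace G]
  [IsTopologicalGroup G] [CompactSpace G] [T2Space G] [TotallyDisconnectedSpace G] [Field K]
  [MulSemiringAction G K] {ζ : K}

/-- the kernel of a continuous character, as a subgroup -/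
def S0.chKer {χ : G → ZMod p} (hχ : IsCh p χ) : Subgroup G where
  carrier := {σ | χ σ = 0}
  mul_mem' := by
    intro a b ha hb
    have ha' : χ a = 0 := ha
    have hb' : χ b = 0 := hb
    change χ (a * b) = 0
    rw [hχ.1, ha', hb', add_zero]
  one_mem' := by
    have h1 := hχ.1 1 1
    rw [mul_one] at h1
    change χ 1 = 0
    simpa using h1
  inv_mem' := by
    intro a ha
    have ha' : χ a = 0 := ha
    have h1 := hχ.1 1 1
    rw [mul_one] at h1
    have h0 : χ 1 = 0 := by simpa using h1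
    have h2 := hχ.1 a a⁻¹
    rw [mul_inv_cancel, h0, ha', zero_add] at h2
    exact h2.symm

/-- S2 (uses G3, N1) -/
theorem nf_of_sym (Gd : Good p G K ζ) {a b : K} (ha : a ∈ (Fx G : Set K)) (ha0 : a ≠ 0)
    (hb : b ∈ (Fx G : Set K)) (hb0 : b ≠ 0) {χ ψ : G → ZMod p} (hχ : IsKum ζ a χ)
    (hψ : IsKum ζ b ψ) (h : IsCob p (fun σ τ => χ σ * ψ τ)) :
    ∃ x : Fin p → K, (∀ i, x i ∈ (Fx G : Set K)) ∧ nf x a = b := by
  refine nf_of_sym_of (fun x α => nf_eq_prod Gd.prim x α) Gd ha0 hb hb0 hχ hψ h ?_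
  intro g hg hlc hgc
  have hch := S0.kum_isCh Gd ha0 hχ
  have hcl : IsClosed ((S0.chKer hch : Subgroup G) : Set G) := by
    have h1 : IsClosed {σ : G | χ σ = 0} :=
      (hch.2.isClosed_fiber 0)
    exact h1
  haveI : CompactSpace (S0.chKer hch) := isCompact_iff_compactSpace.mp hcl.isCompact
  have hc : ∀ x : K, IsOpen {σ : S0.chKer hch | σ • x = x} := by
    intro x
    exact (Gd.cont x).preimage continuous_subtype_val
  have hf : ∀ σ : S0.chKer hch, (∀ x : K, σ • x = x) → σ = 1 := by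
    intro σ hσ
    exact Subtype.ext (Gd.faith (σ : G) hσ)
  obtain ⟨y, hy, hy'⟩ := h90 (G := S0.chKer hch) (K := K) hc hf (fun σ => g (σ : G))
    (fun σ => hg _) (hlc.comp_continuous continuous_subtype_val) (fun σ τ => hgc _ _ σ.2 τ.2)
  exact ⟨y, hy, fun σ hσ => hy' ⟨σ, hσ⟩⟩

end Pool.Helper37.ETC
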