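import Pool.Agent.Helper37.ETC.Defs

/-!
# Block ETC-P6 (helper37, MP_600e55_nt): the neighbourhood filter

`SD.vnhd_of` is `SD.vnhd` with the statements P2, P3a, P3b, P5 as hypotheses.  Proof: helper33.
-/

set_option autoImplicit false

namespace Pool.Helper37.ETC

namespace SD

variable {p : ℕ} {F V : Type*} [Field F] [AddCommGroup V] [Module (ZMod p) V]

theorem φ_one (D : SD p F V) : D.φ 1 = 0 := by
  have h := D.mul (one_ne_zero (α := F)) (one_ne_zero (α := F))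
  rw [mul_one] at h
  simpa using h

theorem zero_mem_N (D : SD p F V) (A : Finset F) : (0 : F) ∈ D.N A := by
  intro a _
  rw [mul_zero, add_zero]
  exact ⟨one_ne_zero, D.φ_one⟩

theorem N_anti (D : SD p F V) {A B : Finset F} (h : A ⊆ B) : D.N B ⊆ D.N A :=
  fun _ hx a ha => hx a (h ha)

/-- the filter generated by the `N A`. -/
def nfilter (D : SD p F V) : Filter F where
  sets := {U | ∃ A : Finset F, D.N A ⊆ U}
  univ_sets := ⟨∅, Set.subset_univ _⟩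
  sets_of_superset := by
    rintro U U' ⟨A, hA⟩ h
    exact ⟨A, hA.trans h⟩
  inter_sets := by
    classical
    rintro U U' ⟨A, hA⟩ ⟨B, hB⟩
    exact ⟨A ∪ B, Set.subset_inter ((D.N_anti Finset.subset_union_left).trans hA)
      ((D.N_anti Finset.subset_union_right).trans hB)⟩

theorem mem_nfilter (D : SD p F V) {U : Set F} :
    U ∈ D.nfilter ↔ ∃ A : Finset F, D.N A ⊆ U := Iff.rfl

theorem N_mem_nfilter (D : SD p F V) (A : Finset F) : D.N A ∈ D.nfilter := ⟨A, subset_rfl⟩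

theorem vnhd_of (D : SD p F V)
    (hsmall : ∀ A : Finset F, ∃ y : F, y ≠ 0 ∧ y ∈ D.N A)
    (hadd : ∀ A : Finset F, ∃ B : Finset F, ∀ x ∈ D.N B, ∀ y ∈ D.N B, x + y ∈ D.N A)
    (hmul : ∀ A : Finset F, ∃ B : Finset F, ∀ x ∈ D.N B, ∀ y ∈ D.N B, x * y ∈ D.N A)
    (hv : ∀ A : Finset F, ∃ B : Finset F, ∀ x y : F, x * y ∈ D.N B → x ∈ D.N A ∨ y ∈ D.N A) :
    ∃ 𝒩 : Filter F, VNhd 𝒩 ∧ {x : F | 1 + x ≠ 0 ∧ D.φ (1 + x) = 0} ∈ 𝒩 := by
  classical
  refine ⟨D.nfilter, ⟨?_, ?_, ?_, ?_, ?_, ?_, ?_⟩, ?_⟩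
  · rintro U ⟨A, hA⟩
    exact hA (D.zero_mem_N A)
  · rintro U ⟨A, hA⟩
    obtain ⟨B, hB⟩ := hadd A
    exact ⟨D.N B, D.N_mem_nfilter B, fun x hx y hy => hA (hB x hx y hy)⟩
  · rintro U ⟨A, hA⟩
    obtain ⟨B, hB⟩ := hmul A
    exact ⟨D.N B, D.N_mem_nfilter B, fun x hx y hy => hA (hB x hx y hy)⟩
  · rintro U ⟨A, hA⟩ k
    refine ⟨A.image fun a => a * k, fun x hx => hA fun a ha => ?_⟩
    have h := hx (a * k) (Finset.mem_image_of_mem _ ha)
    rwa [mul_assoc] at h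
  · refine ⟨D.N {-1}, D.N_mem_nfilter _, fun h => ?_⟩
    have h1 := (h (-1) (Finset.mem_singleton_self _)).1
    exact h1 (by ring)
  · rintro U ⟨A, hA⟩
    obtain ⟨y, hy, hy'⟩ := hsmall A
    exact ⟨y, hA hy', hy⟩
  · rintro U ⟨A, hA⟩
    obtain ⟨B, hB⟩ := hv A
    exact ⟨D.N B, D.N_mem_nfilter B, fun x y hxy => (hB x y hxy).imp (fun h => hA h)
      (fun h => hA h)⟩
  · refine ⟨{1}, fun x hx => ?_⟩
    have h := hx 1 (Finset.mem_singleton_self _)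
    rwa [one_mul] at h

end SD

end Pool.Helper37.ETC
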