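import Pool.Agent.Helper37.ETC.Defs

/-!
# Common lemmas for the blocks ETC-S1, ETC-S2 (helper37, MP_600e55_nt).  Proof: helper33.
-/

set_option autoImplicit false
set_option linter.unusedSectionVars false

namespace Pool.Helper37.ETC

open Finset

section Kum

variable {p : ℕ} [Fact p.Prime] {G K : Type*} [Group G] [TopologicalSpace G]
  [IsTopologicalGroup G] [Field K] [MulSemiringAction G K] {ζ : K}

/-- the orbit map is locally constant -/
theorem S0.orbit_lc (Gd : Good p G K ζ) (x : K) : IsLocallyConstant fun σ : G => σ • x := by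
  rw [IsLocallyConstant.iff_eventually_eq]
  intro σ₀
  have h1 : IsOpen {τ : G | (σ₀⁻¹ * τ) • x = x} :=
    (Gd.cont x).preimage (continuous_const.mul continuous_id)
  have h2 : σ₀ ∈ {τ : G | (σ₀⁻¹ * τ) • x = x} := by simp
  filter_upwards [h1.mem_nhds h2] with τ hτ
  have h3 : (σ₀⁻¹ * τ) • x = x := hτ
  rw [mul_smul, inv_smul_eq_iff] at h3
  exact h3

theorem S0.zeta_pow_val (Gd : Good p G K ζ) (m : ℕ) : ζ ^ ((m : ZMod p)).val = ζ ^ m := by
  rw [ZMod.val_natCast]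
  conv_rhs => rw [← Nat.mod_add_div m p, pow_add, pow_mul, Gd.prim.pow_eq_one, one_pow, mul_one]

theorem S0.zeta_add (Gd : Good p G K ζ) (a b : ZMod p) :
    ζ ^ (a + b).val = ζ ^ a.val * ζ ^ b.val := by
  have : NeZero p := ⟨(Fact.out : p.Prime).ne_zero⟩
  rw [← pow_add, ← S0.zeta_pow_val Gd (a.val + b.val)]
  congr 2
  push_cast
  rw [ZMod.natCast_zmod_val, ZMod.natCast_zmod_val]

theorem S0.zeta_mul (Gd : Good p G K ζ) (a b : ZMod p) :
    ζ ^ (a * b).val = ζ ^ (a.val * b.val) := by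
  have : NeZero p := ⟨(Fact.out : p.Prime).ne_zero⟩
  rw [← S0.zeta_pow_val Gd (a.val * b.val)]
  congr 2
  push_cast
  rw [ZMod.natCast_zmod_val, ZMod.natCast_zmod_val]

theorem S0.zeta_inj (Gd : Good p G K ζ) {a b : ZMod p} (h : ζ ^ a.val = ζ ^ b.val) : a = b := by
  have : NeZero p := ⟨(Fact.out : p.Prime).ne_zero⟩
  exact ZMod.val_injective p (Gd.prim.pow_inj (ZMod.val_lt a) (ZMod.val_lt b) h)

theorem S0.zeta_ne (Gd : Good p G K ζ) : ζ ≠ 0 :=
  Gd.prim.ne_zero (Fact.out : p.Prime).ne_zero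

theorem S0.smul_zeta_pow (Gd : Good p G K ζ) (σ : G) (n : ℕ) : σ • ζ ^ n = ζ ^ n := by
  rw [smul_pow', Gd.fix]

/-- a Kummer character is a continuous character -/
theorem S0.kum_isCh (Gd : Good p G K ζ) {a : K} (ha0 : a ≠ 0) {χ : G → ZMod p}
    (h : IsKum ζ a χ) : IsCh p χ := by
  obtain ⟨α, hα⟩ := Gd.root a
  have hα0 : α ≠ 0 := by
    rintro rfl
    rw [zero_pow (Fact.out : p.Prime).ne_zero] at hα
    exact ha0 hα.symm
  refine ⟨fun σ τ => ?_, ?_⟩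
  · apply S0.zeta_inj Gd
    have h1 := h α hα (σ * τ)
    rw [mul_smul, h α hα τ, smul_mul', S0.smul_zeta_pow Gd, h α hα σ, ← mul_assoc] at h1
    have h2 := mul_right_cancel₀ hα0 h1
    rw [S0.zeta_add Gd, ← h2, mul_comm]
  · have h1 := S0.orbit_lc Gd α
    rw [IsLocallyConstant.iff_eventually_eq] at h1 ⊢
    intro σ₀
    filter_upwards [h1 σ₀] with σ hσ
    apply S0.zeta_inj Gd
    have h2 : ζ ^ (χ σ).val * α = ζ ^ (χ σ₀).val * α := by
      rw [← h α hα σ, ← h α hα σ₀]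
      exact hσ
    exact mul_right_cancel₀ hα0 h2

theorem S0.isCob_neg {c : G → G → ZMod p} (h : IsCob p c) : IsCob p (fun σ τ => - c σ τ) := by
  obtain ⟨f, hf, hc⟩ := h
  refine ⟨fun σ => - f σ, hf.comp (fun x => -x), fun σ τ => ?_⟩
  simp only
  rw [hc σ τ]
  ring

/-- anticommutativity of the cup product -/
theorem S0.cup_anti {χ ψ : G → ZMod p} (hχ : IsCh p χ) (hψ : IsCh p ψ)
    (h : IsCob p (fun σ τ => ψ σ * χ τ)) : IsCob p (fun σ τ => χ σ * ψ τ) := by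
  obtain ⟨f, hf, hc⟩ := h
  refine ⟨fun σ => - f σ - χ σ * ψ σ, ?_, fun σ τ => ?_⟩
  · have h1 : IsLocallyConstant fun σ => (f σ, (χ σ, ψ σ)) :=
      hf.prodMk (hχ.2.prodMk hψ.2)
    exact h1.comp (fun q : ZMod p × (ZMod p × ZMod p) => - q.1 - q.2.1 * q.2.2)
  · have h1 := hc σ τ
    have h2 := hχ.1 σ τ
    have h3 := hψ.1 σ τ
    simp only at h1 ⊢
    rw [h2, h3]
    linear_combination -h1

/-- the cochain `σ ↦ β ^ χ σ` -/
theorem S0.beta_mul (Gd : Good p G K ζ) {b β : K} (hβ : β ^ p = b) {χ ψ : G → ZMod p}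
    (hχ : IsCh p χ) (hψ : IsKum ζ b ψ) (σ τ : G) :
    β ^ (χ σ).val * σ • β ^ (χ τ).val =
      ζ ^ (ψ σ * χ τ).val * (b ^ (((χ σ).val + (χ τ).val) / p) * β ^ (χ (σ * τ)).val) := by
  have : NeZero p := ⟨(Fact.out : p.Prime).ne_zero⟩
  rw [smul_pow', hψ β hβ σ, mul_pow, ← pow_mul, S0.zeta_mul Gd, hχ.1 σ τ, ZMod.val_add, ← hβ,
    ← pow_mul]
  have h1 : β ^ (χ σ).val * β ^ (χ τ).val =
      β ^ (p * (((χ σ).val + (χ τ).val) / p)) * β ^ (((χ σ).val + (χ τ).val) % p) := by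
    rw [← pow_add, ← pow_add, Nat.div_add_mod]
  linear_combination ζ ^ ((ψ σ).val * (χ τ).val) * h1

end Kum

end Pool.Helper37.ETC
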