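import Pool.Agent.Helper33.ETC.S0

/-!
# Block ETC-S1 (helper37, MP_600e55_nt): the cochain.  Proof: helper33.

`sym_of_nf_of` is `sym_of_nf` with the statements N1 and G11 as hypotheses.
-/

set_option autoImplicit false
set_option linter.unusedSectionVars false

namespace Pool.Helper37.ETC

open Finset

variable {p : ℕ} [Fact p.Prime] {G K : Type*} [Group G] [TopologicalSpace G]
  [IsTopologicalGroup G] [Field K] [MulSemiringAction G K] {ζ : K}

/-- the conjugates of `∑ xⱼ αʲ` -/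
def S0.U (ζ α : K) (x : Fin p → K) (i : ℕ) : K := ∑ j : Fin p, x j * (ζ ^ i * α) ^ (j : ℕ)

theorem S0.U_add (hζ : IsPrimitiveRoot ζ p) (α : K) (x : Fin p → K) (i : ℕ) :
    S0.U ζ α x (i + p) = S0.U ζ α x i := by
  unfold S0.U
  rw [pow_add, hζ.pow_eq_one, mul_one]

theorem S0.smul_U (Gd : Good p G K ζ) {a α : K} (hα : α ^ p = a) {χ : G → ZMod p}
    (hχ : IsKum ζ a χ) {x : Fin p → K} (hx : ∀ i, x i ∈ (Fx G : Set K)) (σ : G) (i : ℕ) :
    σ • S0.U ζ α x i = S0.U ζ α x (i + (χ σ).val) := by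
  unfold S0.U
  rw [Finset.smul_sum]
  apply Finset.sum_congr rfl
  intro j _
  rw [smul_mul', hx j σ, smul_pow', smul_mul', S0.smul_zeta_pow Gd, hχ α hα σ, ← mul_assoc,
    ← pow_add]

/-- partial products -/
def S0.e (ζ α : K) (x : Fin p → K) (n : ℕ) : K := ∏ i ∈ range n, S0.U ζ α x i

theorem S0.e_add (ζ α : K) (x : Fin p → K) (m n : ℕ) :
    S0.e ζ α x (m + n) = S0.e ζ α x m * ∏ i ∈ range n, S0.U ζ α x (i + m) := by
  unfold S0.e
  rw [Finset.prod_range_add]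
  congr 1
  apply Finset.prod_congr rfl
  intro i _
  rw [add_comm]

theorem S0.e_mod (hζ : IsPrimitiveRoot ζ p) {α b : K} {x : Fin p → K} (hb : S0.e ζ α x p = b)
    (n : ℕ) : S0.e ζ α x n = b ^ (n / p) * S0.e ζ α x (n % p) := by
  have hp : 0 < p := (Fact.out : p.Prime).pos
  induction n using Nat.strong_induction_on with
  | _ n ih =>
    rcases lt_or_ge n p with h | h
    · rw [Nat.div_eq_of_lt h, Nat.mod_eq_of_lt h, pow_zero, one_mul]
    · obtain ⟨m, rfl⟩ := Nat.exists_eq_add_of_le h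
      rw [S0.e_add, hb]
      have h1 : ∏ i ∈ range m, S0.U ζ α x (i + p) = S0.e ζ α x m := by
        unfold S0.e
        exact Finset.prod_congr rfl fun i _ => S0.U_add hζ α x i
      rw [h1, ih m (by omega), Nat.add_div_left m hp, Nat.add_mod_left, pow_succ]
      ring

/-- the cochain with coboundary `ζ ^ (ψ ∪ χ)` -/
theorem sym_cochain (Gd : Good p G K ζ) {a b : K} (ha0 : a ≠ 0) (hb0 : b ≠ 0)
    {χ ψ : G → ZMod p} (hχ : IsKum ζ a χ)
    (hψ : IsKum ζ b ψ) (x : Fin p → K) (hx : ∀ i, x i ∈ (Fx G : Set K)) {α : K} (hα : α ^ p = a)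
    (h : S0.e ζ α x p = b) :
    ∃ g : G → K, (∀ σ, g σ ≠ 0) ∧ IsLocallyConstant g ∧
      ∀ σ τ, ζ ^ (ψ σ * χ τ).val * g (σ * τ) = g σ * σ • g τ := by
  have : NeZero p := ⟨(Fact.out : p.Prime).ne_zero⟩
  have hp : 0 < p := (Fact.out : p.Prime).pos
  obtain ⟨β, hβ⟩ := Gd.root b
  have hβ0 : β ≠ 0 := by
    rintro rfl
    rw [zero_pow hp.ne'] at hβ
    exact hb0 hβ.symm
  have hch := S0.kum_isCh Gd ha0 hχ
  -- no conjugate vanishes
  have hU : ∀ i < p, S0.U ζ α x i ≠ 0 := by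
    intro i hi h0
    apply hb0
    rw [← h]
    exact Finset.prod_eq_zero (Finset.mem_range.mpr hi) h0
  have he : ∀ n ≤ p, S0.e ζ α x n ≠ 0 := by
    intro n hn
    exact Finset.prod_ne_zero_iff.mpr fun i hi => hU i (lt_of_lt_of_le (Finset.mem_range.mp hi) hn)
  refine ⟨fun σ => β ^ (χ σ).val / S0.e ζ α x (χ σ).val, fun σ => ?_, ?_, fun σ τ => ?_⟩
  · exact div_ne_zero (pow_ne_zero _ hβ0) (he _ (ZMod.val_lt _).le)
  · exact hch.2.comp (fun c : ZMod p => β ^ c.val / S0.e ζ α x c.val)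
  · have h1 := S0.beta_mul Gd hβ hch hψ σ τ
    have h2 : S0.e ζ α x (χ σ).val * σ • S0.e ζ α x (χ τ).val =
        b ^ (((χ σ).val + (χ τ).val) / p) * S0.e ζ α x (χ (σ * τ)).val := by
      have h3 : σ • S0.e ζ α x (χ τ).val =
          ∏ i ∈ range (χ τ).val, S0.U ζ α x (i + (χ σ).val) := by
        unfold S0.e
        rw [Finset.smul_prod']
        exact Finset.prod_congr rfl fun i _ => S0.smul_U Gd hα hχ hx σ i
      rw [h3, ← S0.e_add, S0.e_mod Gd.prim h, hch.1 σ τ, ZMod.val_add]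
    have h4 : b ^ (((χ σ).val + (χ τ).val) / p) ≠ 0 := pow_ne_zero _ hb0
    have h5 := he _ (ZMod.val_lt (χ σ)).le
    have h6 := he _ (ZMod.val_lt (χ τ)).le
    have h7 := he _ (ZMod.val_lt (χ (σ * τ))).le
    have h8 : σ • S0.e ζ α x (χ τ).val ≠ 0 := by
      intro h0
      apply h6
      have := congrArg (fun z => σ⁻¹ • z) h0
      simpa using this
    have h9 : σ • (β ^ (χ τ).val / S0.e ζ α x (χ τ).val) =
        σ • β ^ (χ τ).val / σ • S0.e ζ α x (χ τ).val := by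
      exact smul_div₀' σ _ _
    simp only
    rw [h9, div_mul_div_comm, h1, h2]
    field_simp

/-- `sym_of_nf` from N1 and G11 -/
theorem sym_of_nf_of
    (hN1 : ∀ (x : Fin p → K) (α : K), nf x (α ^ p) =
      ∏ i ∈ Finset.range p, ∑ j : Fin p, x j * (ζ ^ i * α) ^ (j : ℕ))
    (hG11 : ∀ {c : G → G → ZMod p} (g : G → K), (∀ σ, g σ ≠ 0) → IsLocallyConstant g →
      (∀ σ τ, ζ ^ (c σ τ).val * g (σ * τ) = g σ * σ • g τ) → IsCob p c)
    (Gd : Good p G K ζ) {a b : K} (ha0 : a ≠ 0) (hb0 : b ≠ 0) {χ ψ : G → ZMod p}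
    (hχ : IsKum ζ a χ) (hψ : IsKum ζ b ψ) (x : Fin p → K) (hx : ∀ i, x i ∈ (Fx G : Set K))
    (h : nf x a = b) : IsCob p (fun σ τ => χ σ * ψ τ) := by
  obtain ⟨α, hα⟩ := Gd.root a
  have h1 : S0.e ζ α x p = b := by
    rw [← h, ← hα, hN1]
    rfl
  obtain ⟨g, hg, hlc, hgg⟩ := sym_cochain Gd ha0 hb0 hχ hψ x hx hα h1
  exact S0.cup_anti (S0.kum_isCh Gd ha0 hχ) (S0.kum_isCh Gd hb0 hψ)
    (hG11 (c := fun σ τ => ψ σ * χ τ) g hg hlc hgg)

end Pool.Helper37.ETC
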