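import Pool.Agent.Helper33.ETC.S1a

/-!
# Block ETC-S2 (helper37, MP_600e55_nt): from a split symbol to a norm.  Proof: helper33.

`nf_of_sym_of` is `nf_of_sym` with the statements N1 and G3 (Hilbert 90 for `ker χ`) as hypotheses.
-/

set_option autoImplicit false
set_option linter.unusedSectionVars false

namespace Pool.Helper37.ETC

open Finset

variable {p : ℕ} [Fact p.Prime] {G K : Type*} [Group G] [TopologicalSpace G]
  [IsTopologicalGroup G] [Field K] [MulSemiringAction G K] {ζ : K}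

/-- products over `range p` and over `ZMod p` -/
theorem S0.prod_range_eq {M : Type*} [CommMonoid M] (f : ZMod p → M) :
    ∏ i ∈ range p, f (i : ZMod p) = ∏ i : ZMod p, f i := by
  have : NeZero p := ⟨(Fact.out : p.Prime).ne_zero⟩
  refine Finset.prod_nbij' (fun i : ℕ => (i : ZMod p)) (fun i : ZMod p => i.val) ?_ ?_ ?_ ?_ ?_
  · intro i _
    exact Finset.mem_univ _
  · intro i _
    exact Finset.mem_range.mpr (ZMod.val_lt i)
  · intro i hi
    exact ZMod.val_cast_of_lt (Finset.mem_range.mp hi)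
  · intro i _
    exact ZMod.natCast_zmod_val i
  · intro i _
    rfl

theorem S0.sum_range_eq {M : Type*} [AddCommMonoid M] (f : ZMod p → M) :
    ∑ i ∈ range p, f (i : ZMod p) = ∑ i : ZMod p, f i := by
  have h := S0.prod_range_eq (p := p) (M := Multiplicative M) (fun i => Multiplicative.ofAdd (f i))
  exact h

/-- `p ≠ 0` in `K` -/
theorem S0.p_ne (hζ : IsPrimitiveRoot ζ p) : (p : K) ≠ 0 := by
  have hp : 0 < p := (Fact.out : p.Prime).pos
  have h : IsPrimitiveRoot ζ ((⟨p, hp⟩ : ℕ+) : ℕ) := hζ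
  have h2 := IsPrimitiveRoot.neZero' h
  exact h2.out

/-- orthogonality -/
theorem S0.orth (hζ : IsPrimitiveRoot ζ p) (i k : ZMod p) :
    ∑ j : Fin p, ((ζ ^ i.val) ^ (j : ℕ))⁻¹ * (ζ ^ k.val) ^ (j : ℕ) =
      if i = k then (p : K) else 0 := by
  have : NeZero p := ⟨(Fact.out : p.Prime).ne_zero⟩
  have hζ0 : ζ ≠ 0 := hζ.ne_zero (Fact.out : p.Prime).ne_zero
  have h1 : ∀ j : Fin p, ((ζ ^ i.val) ^ (j : ℕ))⁻¹ * (ζ ^ k.val) ^ (j : ℕ) =
      (ζ ^ k.val / ζ ^ i.val) ^ (j : ℕ) := by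
    intro j
    rw [div_pow, div_eq_mul_inv, mul_comm]
  simp_rw [h1]
  rw [Fin.sum_univ_eq_sum_range (fun j => (ζ ^ k.val / ζ ^ i.val) ^ j) p]
  split_ifs with h
  · subst h
    rw [div_self (pow_ne_zero _ hζ0)]
    simp
  · have h2 : ζ ^ k.val / ζ ^ i.val ≠ 1 := by
      intro h3
      rw [div_eq_one_iff_eq (pow_ne_zero _ hζ0)] at h3
      exact h (ZMod.val_injective p (hζ.pow_inj (ZMod.val_lt k) (ZMod.val_lt i) h3)).symm
    have h3 := mul_neg_geom_sum (ζ ^ k.val / ζ ^ i.val) p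
    have h4 : (ζ ^ k.val / ζ ^ i.val) ^ p = 1 := by
      rw [div_pow, ← pow_mul, ← pow_mul, mul_comm k.val, mul_comm i.val, pow_mul, pow_mul,
        hζ.pow_eq_one, one_pow, one_pow, div_one]
    rw [h4, sub_self] at h3
    rcases mul_eq_zero.mp h3 with h5 | h5
    · exact absurd (sub_eq_zero.mp h5).symm h2
    · exact h5

/-- discrete Fourier transform: an equivariant family with product `b` is a norm -/
theorem S0.dft (Gd : Good p G K ζ) {a b α : K} (ha0 : a ≠ 0) (hα : α ^ p = a)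
    {χ : G → ZMod p} (hχ : IsKum ζ a χ) (w : ZMod p → K)
    (hw : ∀ (σ : G) i, σ • w i = w (i + χ σ)) (hb : ∏ i : ZMod p, w i = b) :
    ∃ x : Fin p → K, (∀ i, x i ∈ (Fx G : Set K)) ∧ S0.e ζ α x p = b := by
  have : NeZero p := ⟨(Fact.out : p.Prime).ne_zero⟩
  have hα0 : α ≠ 0 := by
    rintro rfl
    rw [zero_pow (Fact.out : p.Prime).ne_zero] at hα
    exact ha0 hα.symm
  have hζ0 := S0.zeta_ne Gd
  have hp0 := S0.p_ne Gd.prim
  refine ⟨fun j => (p : K)⁻¹ * ∑ i : ZMod p, ((ζ ^ i.val * α) ^ (j : ℕ))⁻¹ * w i, ?_, ?_⟩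
  · intro j σ
    have hpσ : σ • (p : K)⁻¹ = (p : K)⁻¹ := by
      rw [smul_inv'']
      congr 1
      exact map_natCast (MulSemiringAction.toRingHom G K σ) p
    rw [smul_mul', hpσ, Finset.smul_sum]
    congr 1
    rw [← Equiv.sum_comp (Equiv.addRight (χ σ))
      (fun i : ZMod p => ((ζ ^ i.val * α) ^ (j : ℕ))⁻¹ * w i)]
    apply Finset.sum_congr rfl
    intro i _
    rw [smul_mul', smul_inv'', smul_pow', smul_mul', S0.smul_zeta_pow Gd, hχ α hα σ, hw,
      Equiv.coe_addRight, S0.zeta_add Gd, mul_assoc]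
  · unfold S0.e
    rw [← hb, ← S0.prod_range_eq (p := p)]
    apply Finset.prod_congr rfl
    intro k hk
    unfold S0.U
    have hk2 : ((k : ZMod p)).val = k := ZMod.val_cast_of_lt (Finset.mem_range.mp hk)
    have h1 : ∀ j : Fin p, ((p : K)⁻¹ * ∑ i : ZMod p, ((ζ ^ i.val * α) ^ (j : ℕ))⁻¹ * w i) *
        (ζ ^ k * α) ^ (j : ℕ) = (p : K)⁻¹ * ∑ i : ZMod p, w i *
          (((ζ ^ i.val) ^ (j : ℕ))⁻¹ * (ζ ^ ((k : ZMod p)).val) ^ (j : ℕ)) := by
      intro j
      rw [mul_assoc, Finset.sum_mul, hk2]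
      congr 1
      apply Finset.sum_congr rfl
      intro i _
      have h2 : (ζ ^ i.val) ^ (j : ℕ) ≠ 0 := pow_ne_zero _ (pow_ne_zero _ hζ0)
      have h3 : α ^ (j : ℕ) ≠ 0 := pow_ne_zero _ hα0
      rw [mul_pow, mul_pow]
      field_simp
    simp_rw [h1]
    rw [← Finset.mul_sum, Finset.sum_comm]
    simp_rw [← Finset.mul_sum, S0.orth Gd.prim]
    simp [hp0, mul_comm]

/-- `nf_of_sym` from N1 and Hilbert 90 for the kernel of `χ` -/
theorem nf_of_sym_of
    (hN1 : ∀ (x : Fin p → K) (α : K), nf x (α ^ p) =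
      ∏ i ∈ Finset.range p, ∑ j : Fin p, x j * (ζ ^ i * α) ^ (j : ℕ))
    (Gd : Good p G K ζ) {a b : K} (ha0 : a ≠ 0)
    (hb : b ∈ (Fx G : Set K)) (hb0 : b ≠ 0) {χ ψ : G → ZMod p} (hχ : IsKum ζ a χ)
    (hψ : IsKum ζ b ψ) (h : IsCob p (fun σ τ => χ σ * ψ τ))
    (h90 : ∀ g : G → K, (∀ σ, g σ ≠ 0) → IsLocallyConstant g →
      (∀ σ τ, χ σ = 0 → χ τ = 0 → g (σ * τ) = g σ * σ • g τ) →
      ∃ y : K, y ≠ 0 ∧ ∀ σ, χ σ = 0 → g σ = σ • y / y) :
    ∃ x : Fin p → K, (∀ i, x i ∈ (Fx G : Set K)) ∧ nf x a = b := by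
  have : NeZero p := ⟨(Fact.out : p.Prime).ne_zero⟩
  have hp : 0 < p := (Fact.out : p.Prime).pos
  obtain ⟨α, hα⟩ := Gd.root a
  obtain ⟨β, hβ⟩ := Gd.root b
  have hβ0 : β ≠ 0 := by
    rintro rfl
    rw [zero_pow hp.ne'] at hβ
    exact hb0 hβ.symm
  have hch := S0.kum_isCh Gd ha0 hχ
  have hch' := S0.kum_isCh Gd hb0 hψ
  have hζ0 := S0.zeta_ne Gd
  suffices hw : ∃ w : ZMod p → K, (∀ (σ : G) i, σ • w i = w (i + χ σ)) ∧ ∏ i : ZMod p, w i = b by
    obtain ⟨w, hw, hwb⟩ := hw
    obtain ⟨x, hx, hxe⟩ := S0.dft Gd ha0 hα hχ w hw hwb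
    refine ⟨x, hx, ?_⟩
    rw [← hα, hN1]
    exact hxe
  by_cases hzero : ∀ σ, χ σ = 0
  · refine ⟨fun i => if i = 0 then b else 1, fun σ i => ?_, ?_⟩
    · rw [hzero σ, add_zero]
      simp only
      split_ifs
      · exact hb σ
      · exact smul_one σ
    · rw [Finset.prod_ite_eq' Finset.univ (0 : ZMod p) (fun _ => b)]
      simp
  · push Not at hzero
    obtain ⟨s1, hs1⟩ := hzero
    -- an element with `χ = 1`
    have hpow : ∀ (σ : G) (n : ℕ), χ (σ ^ n) = n * χ σ := by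
      intro σ n
      induction n with
      | zero =>
        have h1 := hch.1 1 1
        rw [mul_one] at h1
        simp only [pow_zero, Nat.cast_zero, zero_mul]
        simpa using h1
      | succ n ih =>
        rw [pow_succ, hch.1, ih]
        push_cast
        ring
    have hs0 : ∃ s : G, χ s = 1 := by
      refine ⟨s1 ^ ((χ s1)⁻¹).val, ?_⟩
      rw [hpow, ZMod.natCast_zmod_val, inv_mul_cancel₀ hs1]
    obtain ⟨s, hs⟩ := hs0
    have hχ1 : χ 1 = 0 := by
      have h1 := hch.1 1 1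
      rw [mul_one] at h1
      simpa using h1
    have hχinv : ∀ σ : G, χ σ⁻¹ = - χ σ := by
      intro σ
      have h1 := hch.1 σ σ⁻¹
      rw [mul_inv_cancel, hχ1] at h1
      exact (neg_eq_of_add_eq_zero_right h1.symm).symm
    -- the cochain
    obtain ⟨f, hf, hcob⟩ := S0.cup_anti hch' hch h
    have hG : ∃ g : G → K, (∀ σ, g σ ≠ 0) ∧ IsLocallyConstant g ∧
        ∀ σ τ, g σ * σ • g τ = b ^ (((χ σ).val + (χ τ).val) / p) * g (σ * τ) := by
      refine ⟨fun σ => β ^ (χ σ).val * ζ ^ (- f σ).val, fun σ => ?_, ?_, fun σ τ => ?_⟩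
      · exact mul_ne_zero (pow_ne_zero _ hβ0) (pow_ne_zero _ hζ0)
      · exact (hch.2.prodMk hf).comp (fun q : ZMod p × ZMod p => β ^ q.1.val * ζ ^ (- q.2).val)
      · have h1 := S0.beta_mul Gd hβ hch hψ σ τ
        have h2 : ζ ^ (- f (σ * τ)).val =
            ζ ^ (ψ σ * χ τ).val * (ζ ^ (- f σ).val * ζ ^ (- f τ).val) := by
          rw [← S0.zeta_add Gd, ← S0.zeta_add Gd]
          congr 2
          have h3 := hcob σ τ
          simp only at h3
          rw [h3]
          ring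
        simp only
        rw [smul_mul', S0.smul_zeta_pow Gd, h2]
        linear_combination (ζ ^ (- f σ).val * ζ ^ (- f τ).val) * h1
    obtain ⟨g0, hg0, hg0lc, hg0c⟩ := hG
    obtain ⟨y, hy0, hy⟩ := h90 g0 hg0 hg0lc (by
      intro σ τ h1 h2
      have h3 := hg0c σ τ
      rw [h1, h2, ZMod.val_zero, add_zero, Nat.zero_div, pow_zero, one_mul] at h3
      exact h3.symm)
    have hσy : ∀ σ : G, σ • y ≠ 0 := by
      intro σ h0
      apply hy0
      have := congrArg (fun z => σ⁻¹ • z) h0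
      simpa using this
    -- normalised cochain
    set g : G → K := fun σ => g0 σ * y / (σ • y) with hgdef
    have hgc : ∀ σ τ, g σ * σ • g τ = b ^ (((χ σ).val + (χ τ).val) / p) * g (σ * τ) := by
      intro σ τ
      have h1 := hg0c σ τ
      have h2 := hσy σ
      have h3 := hσy (σ * τ)
      have h4 : σ • (g0 τ * y / (τ • y)) = σ • g0 τ * σ • y / ((σ * τ) • y) := by
        rw [smul_div₀', smul_mul', mul_smul]
      simp only [hgdef]
      rw [h4]
      field_simp
      linear_combination h1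
    have hg1 : ∀ u, χ u = 0 → g u = 1 := by
      intro u hu
      simp only [hgdef]
      rw [hy u hu]
      have := hσy u
      field_simp
    have hgu : ∀ σ u, χ u = 0 → g (σ * u) = g σ := by
      intro σ u hu
      have h1 := hgc σ u
      rw [hg1 u hu, smul_one, mul_one, hu, ZMod.val_zero, add_zero,
        Nat.div_eq_of_lt (ZMod.val_lt _), pow_zero, one_mul] at h1
      exact h1.symm
    have hug : ∀ u σ, χ u = 0 → u • g σ = g σ := by
      intro u σ hu
      have h1 := hgc u σ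
      rw [hg1 u hu, one_mul, hu, ZMod.val_zero, zero_add,
        Nat.div_eq_of_lt (ZMod.val_lt _), pow_zero, one_mul] at h1
      rw [h1]
      have h2 : u * σ = σ * (σ⁻¹ * u * σ) := by group
      rw [h2, hgu σ]
      rw [hch.1, hch.1, hχinv, hu]
      ring
    have hgχ : ∀ σ τ, χ σ = χ τ → g σ = g τ := by
      intro σ τ hστ
      have h1 : τ = σ * (σ⁻¹ * τ) := by group
      rw [h1, hgu]
      rw [hch.1, hχinv, hστ]
      ring
    have hfix : ∀ σ τ, χ σ = χ τ → ∀ z : K, (∀ u, χ u = 0 → u • z = z) → σ • z = τ • z := by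
      intro σ τ hστ z hz
      have h1 : χ (σ⁻¹ * τ) = 0 := by
        rw [hch.1, hχinv, hστ]
        ring
      have h2 := hz _ h1
      rw [mul_smul, inv_smul_eq_iff] at h2
      exact h2.symm
    have hw0 : ∀ u, χ u = 0 → u • g s = g s := fun u hu => hug u s hu
    -- partial products
    have hprod : ∀ n, n < p → ∏ j ∈ range n, (s ^ j) • g s = g (s ^ n) := by
      intro n
      induction n with
      | zero =>
        intro _
        rw [Finset.prod_range_zero, pow_zero, hg1 1 hχ1]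
      | succ n ih =>
        intro hn
        rw [Finset.prod_range_succ, ih (by omega)]
        have h1 := hgc (s ^ n) s
        have h2 : χ (s ^ n) = n := by rw [hpow, hs, mul_one]
        have h3 : ((n : ZMod p)).val = n := ZMod.val_cast_of_lt (by omega)
        have h4 : ((1 : ZMod p)).val ≤ 1 := by
          have := ZMod.val_natCast p 1
          rw [Nat.cast_one] at this
          rw [this]
          exact Nat.mod_le _ _
        rw [h2, h3, hs, Nat.div_eq_of_lt (by omega), pow_zero, one_mul, ← pow_succ] at h1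
        exact h1
    have hprod2 : ∏ j ∈ range p, (s ^ j) • g s = b := by
      obtain ⟨m, hm⟩ := Nat.exists_eq_succ_of_ne_zero hp.ne'
      have h0 : ∏ j ∈ range p, (s ^ j) • g s = (∏ j ∈ range m, (s ^ j) • g s) * (s ^ m) • g s := by
        conv_lhs => rw [hm]
        exact Finset.prod_range_succ _ _
      rw [h0, hprod m (by omega)]
      have h1 := hgc (s ^ m) s
      have h2 : χ (s ^ m) = m := by rw [hpow, hs, mul_one]
      have h3 : ((m : ZMod p)).val = m := ZMod.val_cast_of_lt (by omega)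
      have h4 : ((1 : ZMod p)).val = 1 := by
        have h5 := ZMod.val_natCast p 1
        rw [Nat.cast_one] at h5
        rw [h5]
        exact Nat.mod_eq_of_lt (Fact.out : p.Prime).one_lt
      have h5 : m + 1 = p := by omega
      rw [h2, h3, hs, h4, h5, Nat.div_self hp, pow_one, ← pow_succ, h5] at h1
      rw [h1, hg1 _ (by rw [hpow, hs, mul_one, CharP.cast_eq_zero]), mul_one]
    refine ⟨fun i => (s ^ i.val) • g s, fun σ i => ?_, ?_⟩
    · simp only
      rw [← mul_smul]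
      apply hfix _ _ _ _ hw0
      rw [hch.1, hpow, hpow, hs, mul_one, mul_one, ZMod.natCast_zmod_val, ZMod.natCast_zmod_val,
        add_comm]
    · rw [← S0.prod_range_eq (p := p), ← hprod2]
      apply Finset.prod_congr rfl
      intro j hj
      rw [ZMod.val_cast_of_lt (Finset.mem_range.mp hj)]

end Pool.Helper37.ETC
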